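import Mathlib
import Pool.Agent.N144.OF.Gen4

/-!
# The crystalline Tate conjecture for the reductions of a variety, from one reduction

Let `K` be a number field, `X` a smooth projective variety over `K` and `Y = X ^ n` (or a product of
several varieties) of any dimension. For `v ∉ S` (good reduction) let `q` be the number of elements of the
residue field, `W_v` its ring of Witt vectors, `K_v` the field of fractions of `W_v`, and `B_v` the matrix of the
`K_v`-linear Frobenius `q^{-i} Fr` on `H^{2i}_crys(Y_v)(i)`. The characteristic polynomial `P_v` of `B_v` is in `ℚ[X]`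
and is the same as for the geometric Frobenius on `H^{2i}(Y_K̄, ℚ_ℓ(i))` for all `ℓ` prime to `v` (Katz and
Messing), which is given by the representation `τ_ℓ` of `G_K`. Let `ρ` be the representation of `G_K` on the
`ℓ₀`-adic cohomology of `X` for one prime number `ℓ₀`. We consider `r` cycles `Z_1(v), …, Z_r(v)` of
codimension `i` and `r` cycles `Z'_1(v), …, Z'_r(v)` of complementary codimension on the reductions
`Y_v`, given by the same construction for all `v`: they are obtained from the specialisations of some cycles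
on powers of `X` over `K` and from the graph of the Frobenius endomorphism of `X_v` by products,
pull-backs and push-forwards. So the intersection numbers `G_v(a, c) = Z_a(v) · Z'_c(v)` are given by fixed
polynomials `F a c` in the matrix entries of the Frobenius on the cohomology of `X` (`IsPolynomialLaw`).

**Theorem.** There is an open normal subgroup `U` of `G_K`, that is a finite Galois extension `K'` of `K`,
with `K' = K` if the algebraic monodromy group is connected, such that for EVERY place `v₀ ∉ S` prime to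
`ℓ₀` for which at most `r` of the roots of `P_{v₀}` (with multiplicities) are roots of unity:
* if the intersection matrix `G_{v₀}` is nonsingular, then for `100` percent of the places `v` whose
  Frobenius elements in `Gal(K'/K)` are conjugate to that of `v₀`, so for a set of places of lower
  density at least `1 / [K' : K]`, the crystalline Tate conjecture holds for `Y_v` in codimension `i` over all
  finite extensions of the residue field (`CrystallineTateAt`): over the extension of degree `k` all
  classes fixed by the `k`-th power of the `K_v`-linear Frobenius, and even all generalised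
  eigenvectors, are fixed by it and are combinations of classes of cycles, and crystalline homological
  and numerical equivalence coincide in this codimension;
* if the intersection matrix for the `k`-th power of the Frobenius at `v₀` is nonsingular, the same is
  true for `100` percent of the places whose Frobenius elements in `Gal(K'/K)` are conjugate to the
  `k`-th power of that of `v₀`.

The page says that for varieties of dimension at most `3` the crystalline and the `ℓ`-adic conjecture are
equivalent; in higher dimensions, for instance for the powers of a surface or an abelian variety, this is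
not known. The `ℓ`-adic statements for the same reductions are in `MP_40dc3c_ag.StrongTateFromOneReduction`
(by the same method; the part on Galois representations is used here at one prime number `ℓ₀`
only, and the conclusion is on the crystalline cohomology). Nothing is assumed in characteristic zero.
-/

set_option autoImplicit false

namespace Pool.Agent.Results.MP_60ec62_ag.CrystallineFromOneReduction

open Polynomial Filter Topology NumberField IsDedekindDomain

/-- the absolute Galois group of `K`, with its profinite (Krull) topology -/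
abbrev AbsoluteGaloisGroup (K : Type) [Field K] : Type := Gal(AlgebraicClosure K/K)

/-- `σ` is an (arithmetic) Frobenius element at the prime `v` of the number field `K`: for some prime
`Q` of the algebraic closure above `v` it acts on the residue field as `x ↦ x ^ N(v)` -/
def IsFrobenius {K : Type} [Field K] [NumberField K] (v : HeightOneSpectrum (𝓞 K))
    (σ : AbsoluteGaloisGroup K) : Prop :=
  ∃ Q : Ideal (𝓞 (AlgebraicClosure K)), Q.IsMaximal ∧
    Q.comap (algebraMap (𝓞 K) (𝓞 (AlgebraicClosure K))) = v.asIdeal ∧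
    ∀ x : 𝓞 (AlgebraicClosure K), σ • x - x ^ Ideal.absNorm v.asIdeal ∈ Q

variable {K : Type} [Field K] [NumberField K] {N b r : ℕ}

/-- `τ` is the representation on `H^{2i}(Y_K̄, ℚ_ℓ(i))`: it is continuous and for all `v ∉ S` which are
prime to `ℓ` the characteristic polynomial of the geometric Frobenius elements `σ⁻¹` (`σ` arithmetic) at
`v` is `P v` -/
def IsCohomology (S : Set (HeightOneSpectrum (𝓞 K))) (P : HeightOneSpectrum (𝓞 K) → ℚ[X])
    (ℓ : ℕ) [Fact ℓ.Prime] (τ : AbsoluteGaloisGroup K →* Matrix (Fin b) (Fin b) ℚ_[ℓ]) : Prop :=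
  Continuous τ ∧ ∀ v ∉ S, (ℓ : 𝓞 K) ∉ v.asIdeal → ∀ σ : AbsoluteGaloisGroup K, IsFrobenius v σ →
    (τ σ⁻¹).charpoly = (P v).map (algebraMap ℚ ℚ_[ℓ])

/-- the value of the polynomial `F` at the matrix entries of `ρ g` -/
noncomputable def value {ℓ : ℕ} [Fact ℓ.Prime]
    (ρ : AbsoluteGaloisGroup K →* Matrix (Fin N) (Fin N) ℚ_[ℓ])
    (F : MvPolynomial (Fin N × Fin N) ℚ_[ℓ]) (g : AbsoluteGaloisGroup K) : ℚ_[ℓ] :=
  MvPolynomial.eval (fun x => ρ g x.1 x.2) F

/-- the matrix of the values of the polynomials `F a c` -/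
noncomputable def values {ℓ : ℕ} [Fact ℓ.Prime]
    (ρ : AbsoluteGaloisGroup K →* Matrix (Fin N) (Fin N) ℚ_[ℓ])
    (F : Fin r → Fin r → MvPolynomial (Fin N × Fin N) ℚ_[ℓ]) (g : AbsoluteGaloisGroup K) :
    Matrix (Fin r) (Fin r) ℚ_[ℓ] :=
  Matrix.of fun a c => value ρ (F a c) g

/-- the intersection numbers `G v a c` are given by the class functions `F a c`, polynomials in the
matrix entries of the geometric Frobenius for the continuous representation `ρ` -/
def IsPolynomialLaw (S : Set (HeightOneSpectrum (𝓞 K))) {ℓ : ℕ} [Fact ℓ.Prime]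
    (ρ : AbsoluteGaloisGroup K →* Matrix (Fin N) (Fin N) ℚ_[ℓ])
    (F : Fin r → Fin r → MvPolynomial (Fin N × Fin N) ℚ_[ℓ])
    (G : HeightOneSpectrum (𝓞 K) → Matrix (Fin r) (Fin r) ℚ) : Prop :=
  Continuous ρ ∧ (∀ σ t : AbsoluteGaloisGroup K, values ρ F (t * σ * t⁻¹) = values ρ F σ) ∧
    ∀ v ∉ S, (ℓ : 𝓞 K) ∉ v.asIdeal → ∀ σ : AbsoluteGaloisGroup K, IsFrobenius v σ →
      values ρ F σ⁻¹ = (G v).map (algebraMap ℚ ℚ_[ℓ])

/-- `D` is as the span of the classes of all cycles of codimension `i` on `Y_v` over an algebraic closure of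
the residue field, `B` the matrix of Frobenius: the elements of `D` are fixed by powers of `B`; the `z a ∈ D` are as
the classes of the `Z_a(v)` and `φ c` as the intersection with `Z'_c(v)`, so `φ c (z a) = G a c` -/
def IsCycleSpan {F : Type} [Field F] [Algebra ℚ F] (B : Matrix (Fin b) (Fin b) F)
    (G : Matrix (Fin r) (Fin r) ℚ) (D : Submodule F (Fin b → F)) (z : Fin r → Fin b → F)
    (φ : Fin r → Module.Dual F (Fin b → F)) : Prop :=
  (∀ x ∈ D, ∃ k, 0 < k ∧ (Matrix.toLin' B ^ k) x = x) ∧ (∀ a, z a ∈ D) ∧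
    ∀ a c, φ c (z a) = algebraMap ℚ F (G a c)

/-- the strong Tate statement: `D` has dimension `r`; for all `k > 0` all generalised eigenvectors of `B ^ k` for
the eigenvalue `1` belong to `D` and are fixed by `B ^ k`; and an element of `D` on which all `φ c` vanish is
zero (homological and numerical equivalence) -/
def StrongTate {F : Type} [Field F] [Algebra ℚ F] (B : Matrix (Fin b) (Fin b) F)
    (G : Matrix (Fin r) (Fin r) ℚ) : Prop :=
  ∀ (D : Submodule F (Fin b → F)) (z : Fin r → Fin b → F) (φ : Fin r → Module.Dual F (Fin b → F)),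
    IsCycleSpan B G D z φ →
      Module.finrank F D = r ∧
      (∀ k : ℕ, 0 < k → ∀ x ∈ Module.End.maxGenEigenspace (Matrix.toLin' B ^ k) 1,
        x ∈ D ∧ (Matrix.toLin' B ^ k) x = x) ∧
      ∀ x ∈ D, (∀ c, φ c x = 0) → x = 0

/-- **the crystalline Tate conjecture in codimension `i` for `Y_v`**: for a field `F` of characteristic zero
(`F = K_v`) and a matrix `B` over `F` with characteristic polynomial `P v` (the `K_v`-linear Frobenius on the
twisted crystalline cohomology) the strong Tate statement holds -/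
def CrystallineTateAt (P : HeightOneSpectrum (𝓞 K) → ℚ[X]) (b : ℕ)
    (G : HeightOneSpectrum (𝓞 K) → Matrix (Fin r) (Fin r) ℚ) (v : HeightOneSpectrum (𝓞 K)) : Prop :=
  ∀ (F : Type) [Field F] [CharZero F] (B : Matrix (Fin b) (Fin b) F),
    B.charpoly = (P v).map (algebraMap ℚ F) → StrongTate B (G v)

/-- the algebraic monodromy group is connected: a polynomial relation between the matrix entries of `ρ` and
`τ` which holds on an open subgroup holds everywhere -/
def HasConnectedMonodromy {ℓ : ℕ} [Fact ℓ.Prime]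
    (ρ : AbsoluteGaloisGroup K →* Matrix (Fin N) (Fin N) ℚ_[ℓ])
    (τ : AbsoluteGaloisGroup K →* Matrix (Fin b) (Fin b) ℚ_[ℓ]) : Prop :=
  ∀ (F : MvPolynomial ((Fin N × Fin N) ⊕ (Fin b × Fin b)) ℚ_[ℓ]) (U : Subgroup (AbsoluteGaloisGroup K)),
    IsOpen (U : Set (AbsoluteGaloisGroup K)) →
    (∀ u ∈ U, MvPolynomial.eval (Sum.elim (fun x => ρ u x.1 x.2) (fun x => τ u x.1 x.2)) F = 0) →
    ∀ g, MvPolynomial.eval (Sum.elim (fun x => ρ g x.1 x.2) (fun x => τ g x.1 x.2)) F = 0

/-- some Frobenius element at `v` has a conjugate in the coset `γ U` -/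
def FrobeniusInCoset (U : Subgroup (AbsoluteGaloisGroup K)) (γ : AbsoluteGaloisGroup K)
    (v : HeightOneSpectrum (𝓞 K)) : Prop :=
  ∃ σ : AbsoluteGaloisGroup K, (∃ t : AbsoluteGaloisGroup K, γ⁻¹ * (t * σ * t⁻¹) ∈ U) ∧ IsFrobenius v σ

/-- the number of the places `v` with `N(v) ≤ N` and the property `A`, divided by `π(N)` -/
noncomputable def proportion (A : HeightOneSpectrum (𝓞 K) → Prop) (N : ℕ) : ℝ :=
  (Nat.card {v : HeightOneSpectrum (𝓞 K) // Ideal.absNorm v.asIdeal ≤ N ∧ A v} : ℝ) /
    (Nat.primeCounting N : ℝ)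

/-- the set of places with the property `A` has natural density zero -/
def HasDensityZero (A : HeightOneSpectrum (𝓞 K) → Prop) : Prop := Tendsto (proportion A) atTop (𝓝 0)

/-- the set of places with the property `A` has lower natural density at least `δ` -/
def HasLowerDensityAtLeast (A : HeightOneSpectrum (𝓞 K) → Prop) (δ : ℝ) : Prop :=
  ∀ ε : ℝ, 0 < ε → ∀ᶠ N : ℕ in atTop, δ - ε ≤ proportion A N

/-- the number of the complex roots (with multiplicities) which are roots of unity -/
noncomputable def numberOfRootsOfUnity (P : ℚ[X]) : ℕ := by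
  classical
  exact ((P.map (algebraMap ℚ ℂ)).roots.countP fun a => ∃ k : ℕ, 0 < k ∧ a ^ k = 1)

/-- **The crystalline Tate conjecture for the reductions, in any codimension, from one reduction.** -/
theorem result (K : Type) [Field K] [NumberField K] (N b r : ℕ)
    (S : Set (HeightOneSpectrum (𝓞 K))) (hS : S.Finite) (P : HeightOneSpectrum (𝓞 K) → ℚ[X])
    (τ : ∀ (ℓ : ℕ) [Fact ℓ.Prime], AbsoluteGaloisGroup K →* Matrix (Fin b) (Fin b) ℚ_[ℓ])
    (hτ : ∀ (ℓ : ℕ) [Fact ℓ.Prime], IsCohomology S P ℓ (τ ℓ)) (ℓ₀ : ℕ) [Fact ℓ₀.Prime]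
    (ρ : AbsoluteGaloisGroup K →* Matrix (Fin N) (Fin N) ℚ_[ℓ₀])
    (F : Fin r → Fin r → MvPolynomial (Fin N × Fin N) ℚ_[ℓ₀])
    (G : HeightOneSpectrum (𝓞 K) → Matrix (Fin r) (Fin r) ℚ) (hG : IsPolynomialLaw S ρ F G) :
    ∃ U : Subgroup (AbsoluteGaloisGroup K), U.Normal ∧ IsOpen (U : Set (AbsoluteGaloisGroup K)) ∧
      (HasConnectedMonodromy ρ (τ ℓ₀) → U = ⊤) ∧
      ∀ v₀ ∉ S, (ℓ₀ : 𝓞 K) ∉ v₀.asIdeal → numberOfRootsOfUnity (P v₀) ≤ r → ∀ σ₀, IsFrobenius v₀ σ₀ →
        ((G v₀).det ≠ 0 →
          HasDensityZero (fun v => FrobeniusInCoset U σ₀ v ∧ ¬ CrystallineTateAt P b G v) ∧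
          HasLowerDensityAtLeast (CrystallineTateAt P b G) (1 / (U.index : ℝ))) ∧
        ∀ k : ℕ, 0 < k → (values ρ F (σ₀⁻¹ ^ k)).det ≠ 0 →
          HasDensityZero (fun v => FrobeniusInCoset U (σ₀ ^ k) v ∧ ¬ CrystallineTateAt P b G v) ∧
          HasLowerDensityAtLeast (CrystallineTateAt P b G) (1 / (U.index : ℝ)) := by
  obtain ⟨U, hN, hU, hmin, htop⟩ := Pool.Agent.N144.OF.exists_sub
    (Pool.Agent.N144.OF.dsum (Pool.Agent.N144.OF.dual ρ) (Pool.Agent.N144.OF.dual (τ ℓ₀)))
  refine ⟨U, hN, hU, fun h => htop (Pool.Agent.N144.OF.pair_min ρ (τ ℓ₀) h), ?_⟩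
  intro v₀ hv₀ hℓv h0 σ₀ hσ₀
  have hgood : ∀ v ∉ S, (G v).det ≠ 0 →
      Pool.Agent.N144.OF.cnt ℂ (Pool.Agent.N144.OF.expo b) (P v) ≤ r → CrystallineTateAt P b G v := by
    intro v hv h1 h2 F _ _ B hB D z φ hD
    exact Pool.Agent.N144.OF.strong_all B (P v) hB h2 (G v) h1 D z φ hD.1 hD.2.1 hD.2.2
  have key : ∀ k : ℕ, 0 < k → (values ρ F (σ₀⁻¹ ^ k)).det ≠ 0 →
      HasDensityZero (fun v => FrobeniusInCoset U (σ₀ ^ k) v ∧ ¬ CrystallineTateAt P b G v) ∧
      HasLowerDensityAtLeast (CrystallineTateAt P b G) (1 / (U.index : ℝ)) := by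
    intro k hk hdet
    exact Pool.Agent.N144.OF.strong_law hS hτ ℓ₀ ρ hG.1 F hG.2.1 G hG.2.2 U hU hmin
      (CrystallineTateAt P b G) hgood v₀ hv₀ hℓv h0 σ₀ hσ₀ k hk hdet
  refine ⟨fun hdet => ?_, key⟩
  have h1 : (values ρ F (σ₀⁻¹ ^ 1)).det ≠ 0 := by
    rw [pow_one, hG.2.2 v₀ hv₀ hℓv σ₀ hσ₀]
    have h4 : ((G v₀).map (algebraMap ℚ ℚ_[ℓ₀])).det = algebraMap ℚ ℚ_[ℓ₀] (G v₀).det :=
      (RingHom.map_det _ _).symm
    rw [h4]
    exact (map_ne_zero_iff _ (algebraMap ℚ ℚ_[ℓ₀]).injective).mpr hdet
  have h2 := key 1 one_pos h1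
  rw [pow_one] at h2
  exact h2

end Pool.Agent.Results.MP_60ec62_ag.CrystallineFromOneReduction
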