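import Pool.Agent.N522.KU.Main

/-!
# A Künneth formula for the Tate classes of products over finite fields

Let `W` and `V` be smooth projective varieties over the field `k` with `q = p ^ a` elements, let `K` be the
fraction field of the ring of Witt vectors of `k` and let `Ω` be an algebraic closure of `K`. Let `M₁`
be the crystalline cohomology group `H^{n₁}(W)` and let `M₂` be the crystalline cohomology group
`H^{n₂}(V)`, with coefficients in `Ω`, with their linear Frobenius endomorphisms `φ₁` and `φ₂`; so
`M₁ ⊗ M₂`, with the Frobenius endomorphism `φ₁ ⊗ φ₂`, is the Künneth component of type `(n₁, n₂)` of the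
cohomology of `W × V`. (The extension of the scalars from `K` to `Ω` does not change the crystalline Tate
conjecture; the theorem holds for all algebraically closed fields `Ω` of characteristic zero, in
particular also for the `ℓ`-adic cohomology.) The eigenvalues of `φ₁` and of `φ₂` are Weil numbers of
weights `n₁` and `n₂` (`IsWeilNumber`; Deligne, Katz and Messing): algebraic numbers all of whose complex
conjugates have the absolute value `q ^ (n / 2)`.

Let `F ⊆ Ω` be a field of algebraic numbers such that a power of each eigenvalue of `φ₁` belongs to `F`.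
A Weil number `α` is *free* over `F` (`IsFree`), if one of the following holds:

* the norm of `α` over `F`, i.e. up to the sign the constant coefficient of its minimal polynomial over
  `F`, is a root of unity times a power of the square root of `q`;
* `F` is a finite Galois extension of `ℚ`, and for some `N > 0` the field `F ∩ ℚ(α ^ N)` is totally
  real.

**Theorem** (1). Suppose that each eigenvalue of `φ₂` is a product of Weil numbers that are free over `F`
(`IsFreeProduct`). Then each generalised Tate class `x` in `M₁ ⊗ M₂` over a finite extension of the ground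
field (`IsGenTate`: the class `x` is killed by a power of `Fr ^ t - q ^ (t c)`, for some `t > 0`) is a sum
of products `u ⊗ v` of *supersingular* classes `u` in `H^{n₁}(W)` and `v` in `H^{n₂}(V)`
(`IsSupersingular`: `u` is killed by a power of `Fr ^ (2 t) - q ^ (t n₁)`, for some `t > 0`; if `n₁ = 2 c₁`
these are the generalised Tate classes of codimension `c₁`).

(2). Suppose moreover that `n₁ = 2 c₁` and `n₂ = 2 c₂`, and let `A₁`, `A₂` and `A` be subspaces of
`H^{2 c₁}(W)`, `H^{2 c₂}(V)` and `H^{2 c₁}(W) ⊗ H^{2 c₂}(V)` (the spaces spanned by the classes of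
algebraic cycles), such that `u ⊗ v` belongs to `A` for `u` in `A₁` and `v` in `A₂`. If all generalised
Tate classes of `W` and of `V` of the codimensions `c₁` and `c₂` are algebraic (i.e. the Tate conjecture
holds, and the eigenvalue `q ^ c` of Frobenius is semisimple, over all finite extensions), then all
generalised Tate classes in `H^{2 c₁}(W) ⊗ H^{2 c₂}(V)` are algebraic.

Here `V` may be a product of any powers of any varieties `V_1, …, V_k` whose cohomology has eigenvalues
that are products of free Weil numbers (for abelian varieties: the eigenvalues on `H^1` are free; for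
surfaces: the eigenvalues on `H^1` and on `H^2` are free). Nothing is assumed on the relations between the eigenvalues
of the different `V_i`, and nothing on `W`, except that the field `F` contains a power of each eigenvalue
of `W`. So the Tate conjecture (with semisimplicity) for `W × V_1^{m_1} × ⋯ × V_k^{m_k}` and its
generalised Tate classes in even Künneth components are reduced to `W` and to `V_1^{m_1} × ⋯ × V_k^{m_k}`.
Examples:

* Let `W` be any variety, let `F` be the Galois closure of the field generated by a power of all
  eigenvalues of `W`. The numbers with `F ∩ ℚ(α ^ N)` totally real are free. This is a condition on the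
  single fields `ℚ(α ^ N)`, not on their Galois closures or composita. For example let `ℓ` be an odd prime
  number that does not divide `[F : ℚ]` (for instance let `W` be an abelian variety all of whose simple
  factors have dimension less than `ℓ`), and let the `V_i` be absolutely simple abelian varieties of
  dimension `ℓ`, whose fields `ℚ(α ^ N)` have degree `2 ℓ` and contain no imaginary quadratic field: then
  `V` is any product of such varieties, with any relations between them. (The degree of the field
  `F ∩ ℚ(α ^ N)` divides `2 ℓ` and `[F : ℚ]`, so it is one or two; this field is not imaginary quadratic,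
  and `ℚ(α ^ N)` contains no real quadratic field since its maximal totally real subfield has the odd
  degree `ℓ`; so it is `ℚ`.)
* `W` is a product of elliptic curves and abelian surfaces, so `[F : ℚ]` is a power of two, and `V` is a
  product of surfaces `V_i` with `b_1 = 0`, the transcendental eigenvalues `q β` of which have fields
  `ℚ(β ^ N)` of degree `2 m`, `m` odd, without imaginary quadratic subfields.
* `W` is a variety with eigenvalues `α` such that a power of `α` belongs to a field `F`, and `V_i` are
  varieties with irreducible Frobenius polynomials over `F` (the norm of `α` over `F` is then a power of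
  `q` up to the sign): `ℚ(α)` may be contained in the Galois closure of `F`.
-/

namespace Pool.Agent.Results.MP_60ec62_ag.KunnethFreeFactors

open Module Pool.Agent.N522.KU
open scoped TensorProduct

/-- `M₁ = H^{n₁}(W)`, `M₂ = H^{n₂}(V)` with their Frobenius endomorphisms `φ₁`, `φ₂`; powers of the
eigenvalues of `φ₁` belong to the field `F`, the eigenvalues of `φ₂` are products of Weil numbers that are
free over `F`. The generalised Tate classes in `M₁ ⊗ M₂` are sums of products of supersingular classes,
and algebraic if `n₁`, `n₂` are even and the generalised Tate classes in `M₁` and `M₂` are algebraic. -/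
theorem result {Ω : Type} [Field Ω] [CharZero Ω] [IsAlgClosed Ω] (F : IntermediateField ℚ Ω)
    {p a n₁ n₂ : ℕ} (hp : 1 < p) (ha : 0 < a) {M₁ M₂ : Type} [AddCommGroup M₁] [Module Ω M₁]
    [FiniteDimensional Ω M₁] [AddCommGroup M₂] [Module Ω M₂] [FiniteDimensional Ω M₂]
    (φ₁ : M₁ →ₗ[Ω] M₁) (φ₂ : M₂ →ₗ[Ω] M₂)
    (h₁ : ∀ α, End.HasEigenvalue φ₁ α → IsWeilNumber p a n₁ α ∧ ∃ N : ℕ, 0 < N ∧ α ^ N ∈ F)
    (h₂ : ∀ β, End.HasEigenvalue φ₂ β → IsFreeProduct F p a n₂ β) :
    (∀ (c : ℕ) (x : M₁ ⊗[Ω] M₂), IsGenTate p a (TensorProduct.map φ₁ φ₂) c x →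
      x ∈ Submodule.span Ω {z | ∃ (u : M₁) (v : M₂), IsSupersingular p a φ₁ n₁ u ∧
        IsSupersingular p a φ₂ n₂ v ∧ z = u ⊗ₜ[Ω] v}) ∧
    ∀ c₁ c₂ : ℕ, n₁ = 2 * c₁ → n₂ = 2 * c₂ →
      ∀ (A₁ : Submodule Ω M₁) (A₂ : Submodule Ω M₂) (A : Submodule Ω (M₁ ⊗[Ω] M₂)),
        (∀ u ∈ A₁, ∀ v ∈ A₂, u ⊗ₜ[Ω] v ∈ A) →
        (∀ u, IsGenTate p a φ₁ c₁ u → u ∈ A₁) → (∀ v, IsGenTate p a φ₂ c₂ v → v ∈ A₂) →
        ∀ (c : ℕ) (x : M₁ ⊗[Ω] M₂), IsGenTate p a (TensorProduct.map φ₁ φ₂) c x → x ∈ A := by
  have key := fun (c : ℕ) (x : M₁ ⊗[Ω] M₂) (hx : IsGenTate p a (TensorProduct.map φ₁ φ₂) c x) =>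
    kuenneth F hp ha φ₁ φ₂ h₁ h₂ c x hx
  refine ⟨key, ?_⟩
  intro c₁ c₂ e₁ e₂ A₁ A₂ A hA hA₁ hA₂ c x hx
  refine (Submodule.span_le.2 ?_) (key c x hx)
  rintro z ⟨u, v, ⟨t, r, ht, hu⟩, ⟨t', r', ht', hv⟩, rfl⟩
  refine hA u (hA₁ u ⟨2 * t, r, by omega, ?_⟩) v (hA₂ v ⟨2 * t', r', by omega, ?_⟩)
  · rw [e₁] at hu
    rw [show a * (2 * t) * c₁ = a * t * (2 * c₁) by ring]
    exact hu
  · rw [e₂] at hv
    rw [show a * (2 * t') * c₂ = a * t' * (2 * c₂) by ring]
    exact hv

end Pool.Agent.Results.MP_60ec62_ag.KunnethFreeFactors
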