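import Pool.Agent.N867.AS.Q9

/-!
# Frobenius eigenvalues `q^r` on products of Artin–Schreier surfaces `y^p - y = f_i(x, t)`
-/

set_option autoImplicit false

namespace Pool.Agent.Results.MP_60ec62_ag.ProductsOfSurfaces

open Polynomial

/-- All monomials `x^m t^n` of `f ∈ k[t][x]` (outer variable `x`, inner variable `t`) satisfy
`b m + a n ≤ g a b`, and those with equality make up `∑_{r ≤ g} Φ_r x^{a r} t^{b (g - r)}`, where
`Φ_r` is the coefficient of `X^r` in `Φ`. -/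
structure Leads {k : Type} [Field k] (a b g : ℕ) (Φ : k[X]) (f : k[X][X]) : Prop where
  wt : ∀ m n, (f.coeff m).coeff n ≠ 0 → b * m + a * n ≤ g * (a * b)
  top : ∀ r ≤ g, (f.coeff (a * r)).coeff (b * (g - r)) = Φ.coeff r

/-- The pairs `u = (u_1, u_2)` of positive integers with `b u_1 + a u_2 = w`. -/
abbrev Lattice (a b w : ℕ) : Type :=
  {u : Fin (w + 1) × Fin (w + 1) //
    0 < (u.1 : ℕ) ∧ 0 < (u.2 : ℕ) ∧ b * (u.1 : ℕ) + a * (u.2 : ℕ) = w}

/-- The matrix with entries the coefficients of `X^{(p v_1 - u_1)/a}` in `Φ^n`, for `u` and `v` in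
`Lattice a b w`. -/
noncomputable def hasseWitt {k : Type} [Field k] (p a b w n : ℕ) (Φ : k[X]) :
    Matrix (Lattice a b w) (Lattice a b w) k :=
  Matrix.of fun u v => (Φ ^ n).coeff ((p * (v.1.1 : ℕ) - (u.1.1 : ℕ)) / a)

/-- For every `w` with `0 < w < g a b` the matrix `hasseWitt` of `Φ^{(p-1)w/(gab)}` is
invertible. -/
def Ordinary {k : Type} [Field k] (p a b g : ℕ) (Φ : k[X]) : Prop :=
  ∀ w, 0 < w → w < g * (a * b) → (hasseWitt p a b w ((p - 1) * w / (g * (a * b))) Φ).det ≠ 0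

/-- `Φ = X^g - c` with `c ≠ 0`. -/
def Diagonal {k : Type} [Field k] (g : ℕ) (Φ : k[X]) : Prop :=
  ∃ c : k, c ≠ 0 ∧ Φ = X ^ g - C c

/-- The value `f(x, t)` at a point with coordinates in an algebraic closure of `k`. -/
noncomputable def value {k : Type} [Field k] (f : k[X][X]) (t x : AlgebraicClosure k) :
    AlgebraicClosure k :=
  f.eval₂ (eval₂RingHom (algebraMap k (AlgebraicClosure k)) t) x

/-- `t, x, y` lie in `F_Q = {z : z^Q = z}` and `y^p - y = f(x, t)`. -/
def IsPoint {k : Type} [Field k] (p : ℕ) (f : k[X][X]) (Q : ℕ) (t x y : AlgebraicClosure k) :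
    Prop :=
  t ^ Q = t ∧ x ^ Q = x ∧ y ^ Q = y ∧ y ^ p - y = value f t x

/-- The number of `(t, x, y)` with coordinates in `F_Q` such that `y^p - y = f(x, t)`. -/
noncomputable def points {k : Type} [Field k] (p : ℕ) (f : k[X][X]) (Q : ℕ) : ℕ :=
  Nat.card {v : AlgebraicClosure k × AlgebraicClosure k × AlgebraicClosure k //
    IsPoint p f Q v.1 v.2.1 v.2.2}

/-- The power series `∑_{m ≥ 1} (q^{2m} - N_m) T^m`, where `q = #k` and
`N_m = points p f (q^m)`. -/
noncomputable def traces {k : Type} [Field k] [Fintype k] (p : ℕ) (f : k[X][X]) :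
    PowerSeries ℚ :=
  PowerSeries.mk fun m => if m = 0 then 0 else
    ((Fintype.card k : ℚ) ^ (2 * m) - (points p f (Fintype.card k ^ m) : ℚ))

/-- `L(T) = exp (∑_{m ≥ 1} (q^{2m} - N_m) T^m / m)`: that is, `L(0) = 1` and
`T L' = L ∑_{m ≥ 1} (q^{2m} - N_m) T^m`. -/
def IsLFunction {k : Type} [Field k] [Fintype k] (p : ℕ) (f : k[X][X]) (L : ℚ[X]) : Prop :=
  L.coeff 0 = 1 ∧
    PowerSeries.X * PowerSeries.derivative ℚ (L : PowerSeries ℚ) =
      (L : PowerSeries ℚ) * traces p f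

/-- All complex roots of `L` have absolute value `1/q`. -/
def Pure (q : ℕ) (L : ℚ[X]) : Prop :=
  ∀ z : ℂ, aeval z L = 0 → ‖z‖ * (q : ℝ) = 1

/-- The power series `∑_{m ≥ 1} (∏_i N_{i,m}) T^m`, where `N_{i,m} = points p (f i) (q^m)`: the
product is the number of points over `F_{q^m}` of the product `U` of the surfaces
`y^p - y = f_i(x, t)`. -/
noncomputable def productPoints {k : Type} [Field k] [Fintype k] {I : Type} [Fintype I] (p : ℕ)
    (f : I → k[X][X]) : PowerSeries ℚ :=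
  PowerSeries.mk fun m => if m = 0 then 0 else
    ∏ i, (points p (f i) (Fintype.card k ^ m) : ℚ)

/-- `B(T) = exp (-∑_{m ≥ 1} #U(F_{q^m}) T^m / m)`, that is, `1/B` is the zeta function of the
product `U` of the surfaces `y^p - y = f_i(x, t)`: `B(0) = 1` and
`T B' = - B ∑_{m ≥ 1} #U(F_{q^m}) T^m`. -/
def IsInverseZeta {k : Type} [Field k] [Fintype k] {I : Type} [Fintype I] (p : ℕ)
    (f : I → k[X][X]) (B : ℚ[X]) : Prop :=
  B.coeff 0 = 1 ∧
    PowerSeries.X * PowerSeries.derivative ℚ (B : PowerSeries ℚ) =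
      -((B : PowerSeries ℚ) * productPoints p f)

theorem Leads.lead {k : Type} [Field k] {a b g : ℕ} {Φ : k[X]} {f : k[X][X]}
    (h : Leads a b g Φ f) (hΦ : Φ.natDegree = g) : Pool.Agent.N867.AS.Final2.Lead a b g Φ f := by
  refine ⟨h.wt, ?_⟩
  ext r
  rcases Nat.lt_or_ge g r with hr | hr
  · have h1 : Φ.coeff r = 0 := coeff_eq_zero_of_natDegree_lt (by rw [hΦ]; exact hr)
    rw [h1, Pool.Agent.N867.AS.TV.topPoly, finsetSum_coeff]
    refine Finset.sum_eq_zero fun i hi => ?_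
    rw [coeff_C_mul, coeff_X_pow, if_neg, mul_zero]
    have := Finset.mem_range.1 hi
    omega
  · rw [Pool.Agent.N867.AS.RG.top_coeff a b g f hr, h.top r hr]

/-- For `i` in a finite set `I` let `H_{i1}, …, H_{i e_i}` be distinct monic irreducible polynomials
over `k` of total degree `g_i`, such that `Φ_i = H_{i1} ⋯ H_{i e_i}` is ordinary or of the form
`X^{g_i} - c`, and let `f_i` have leading form `Φ_i`. Let the numbers `M_i = g_i a_i b_i` be
pairwise coprime, and let the degrees of `H_{ij}` and `H_{i'j'}` be coprime for `i ≠ i'`. Then the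
order of the pole at `T = q^{-r}` of the zeta function `1/B` of the product of the surfaces
`y^p - y = f_i(x, t)` is zero for `r > 2 |I|`, and for `r = 2 |I| - j` it is at least
`∑_{|J| = j} ∏_{i ∈ J} ord_{T = 1/q} L_i` and at most `∑_{|J| = j} ∏_{i ∈ J} (p-1)(e_i-1)`. -/
theorem result (p : ℕ) (hp : p.Prime) (k : Type) [Field k] [Fintype k] [CharP k p]
    (I : Type) [Fintype I] (a b g e : I → ℕ) (hab : ∀ i, (a i).Coprime (b i))
    (hga : ∀ i, g i * a i ∣ p - 1) (hgb : ∀ i, g i * b i ∣ p - 1)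
    (H : ∀ i, Fin (e i) → k[X]) (hirr : ∀ i j, Irreducible (H i j)) (hmon : ∀ i j, (H i j).Monic)
    (hinj : ∀ i, Function.Injective (H i)) (hdeg : ∀ i, ∑ j, (H i j).natDegree = g i)
    (hord : ∀ i, Ordinary p (a i) (b i) (g i) (∏ j, H i j) ∨ Diagonal (g i) (∏ j, H i j))
    (f : I → k[X][X]) (hf : ∀ i, Leads (a i) (b i) (g i) (∏ j, H i j) (f i))
    (hM : ∀ i i', i ≠ i' → (g i * (a i * b i)).Coprime (g i' * (a i' * b i')))
    (hd : ∀ i i', i ≠ i' → ∀ j j', (H i j).natDegree.Coprime (H i' j').natDegree)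
    (L : I → ℚ[X]) (hL : ∀ i, IsLFunction p (f i) (L i))
    (hpure : ∀ i, Pure (Fintype.card k) (L i)) (B : ℚ[X]) (hB : IsInverseZeta p f B) :
    (∀ r, 2 * Fintype.card I < r → B.rootMultiplicity (1 / (Fintype.card k : ℚ) ^ r) = 0) ∧
    ∀ r j, r + j = 2 * Fintype.card I →
      ∑ J ∈ Finset.univ.powersetCard j, ∏ i ∈ J,
          (L i).rootMultiplicity (1 / (Fintype.card k : ℚ)) ≤
        B.rootMultiplicity (1 / (Fintype.card k : ℚ) ^ r) ∧
      B.rootMultiplicity (1 / (Fintype.card k : ℚ) ^ r) ≤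
        ∑ J ∈ Finset.univ.powersetCard j, ∏ i ∈ J, ((p - 1) * (e i - 1)) := by
  have hp1 : p - 1 ≠ 0 := by
    have := hp.two_le
    omega
  have hga0 : ∀ i, g i * a i ≠ 0 := fun i h => hp1 (by
    have := hga i
    rwa [h, zero_dvd_iff] at this)
  have hgb0 : ∀ i, g i * b i ≠ 0 := fun i h => hp1 (by
    have := hgb i
    rwa [h, zero_dvd_iff] at this)
  have hg : ∀ i, g i ≠ 0 := fun i => left_ne_zero_of_mul (hga0 i)
  have ha : ∀ i, a i ≠ 0 := fun i => right_ne_zero_of_mul (hga0 i)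
  have hb : ∀ i, b i ≠ 0 := fun i => right_ne_zero_of_mul (hgb0 i)
  have hΦ : ∀ i, (∏ j, H i j).natDegree = g i := by
    intro i
    rw [natDegree_prod_of_monic _ _ fun j _ => hmon i j, hdeg]
  have hord' : ∀ i, Pool.Agent.N867.AS.LP.OrdP p (a i) (b i) (g i) (∏ j, H i j) := by
    intro i
    rcases hord i with h | ⟨c, hc, h⟩
    · exact h
    · rw [h]
      exact Pool.Agent.N867.AS.LP.ord_diag hp (ha i) (hb i) (hab i) (hg i)
        (Pool.Agent.N867.AS.TV.dvd_M (hab i) (hg i) (hga i) (hgb i)) hc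
  exact Pool.Agent.N867.AS.GQ.main p hp k I a b g e hab hga hgb H hirr hmon hinj hΦ hord' f
    (fun i => (hf i).lead (hΦ i)) hM hd L (fun i => (hL i).1) (fun i => (hL i).2) hpure B hB.1 hB.2

end Pool.Agent.Results.MP_60ec62_ag.ProductsOfSurfaces
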